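import Pool.Agent.Helper1.MT.DefsU

/-!
# Project MT, module MU-Y: the average of the singular factors
-/

set_option autoImplicit false

open Finset

namespace Pool.Agent.Helper68.MT

open Pool.Agent.Helper1.MT

/-- the factor of a number -/
noncomputable def FF (m : ℕ) : ℝ := ∏ p ∈ m.primeFactors, (1 + 1 / (p : ℝ))

theorem one_le_fac (p : ℕ) : (1 : ℝ) ≤ 1 + 1 / (p : ℝ) :=
  le_add_of_nonneg_right (by positivity)

theorem one_le_prod_fac (s : Finset ℕ) : (1 : ℝ) ≤ ∏ p ∈ s, (1 + 1 / (p : ℝ)) := by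
  have h := Finset.prod_le_prod (s := s) (f := fun _ => (1 : ℝ)) (g := fun p : ℕ => 1 + 1 / (p : ℝ))
    (fun _ _ => zero_le_one) (fun p _ => one_le_fac p)
  simpa using h

theorem FF_nonneg (m : ℕ) : 0 ≤ FF m := zero_le_one.trans (one_le_prod_fac _)

theorem prod_union_le (s t : Finset ℕ) :
    ∏ p ∈ s ∪ t, (1 + 1 / (p : ℝ)) ≤
      (∏ p ∈ s, (1 + 1 / (p : ℝ))) * ∏ p ∈ t, (1 + 1 / (p : ℝ)) := by
  rw [← Finset.prod_union_inter]
  exact le_mul_of_one_le_right (zero_le_one.trans (one_le_prod_fac _)) (one_le_prod_fac _)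

theorem prod_primeFactors_le {ι : Type} (s : Finset ι) (m : ι → ℕ) (hm : ∀ i ∈ s, m i ≠ 0) :
    ∏ p ∈ (∏ i ∈ s, m i).primeFactors, (1 + 1 / (p : ℝ)) ≤ ∏ i ∈ s, FF (m i) := by
  classical
  induction s using Finset.induction_on with
  | empty => simp
  | insert i s hi ih =>
    have h1 : ∏ i ∈ s, m i ≠ 0 :=
      Finset.prod_ne_zero_iff.2 fun j hj => hm j (mem_insert_of_mem hj)
    rw [Finset.prod_insert hi, Finset.prod_insert hi,
      Nat.primeFactors_mul (hm i (mem_insert_self _ _)) h1]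
    refine (prod_union_le _ _).trans ?_
    exact mul_le_mul_of_nonneg_left (ih fun j hj => hm j (mem_insert_of_mem hj)) (FF_nonneg _)

theorem prod_le_sum_pow {K : ℕ} (hK : 0 < K) (a : Fin K → ℝ) (ha : ∀ i, 0 ≤ a i) :
    ∏ i, a i ≤ ∑ i, a i ^ K := by
  haveI : Nonempty (Fin K) := ⟨⟨0, hK⟩⟩
  obtain ⟨i0, -, h0⟩ := Finset.exists_max_image (univ : Finset (Fin K)) a univ_nonempty
  calc ∏ i, a i ≤ ∏ _i : Fin K, a i0 := Finset.prod_le_prod (fun i _ => ha i) fun i _ => h0 i
        (mem_univ i)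
    _ = a i0 ^ K := by simp
    _ ≤ ∑ i, a i ^ K := Finset.single_le_sum (f := fun i => a i ^ K)
        (fun i _ => pow_nonneg (ha i) K) (mem_univ i0)

theorem sum_abs_le (Y h : ℕ) (hh : h ≤ Y) (G : ℕ → ℝ) (hG : ∀ m, 0 ≤ G m) :
    ∑ j ∈ (range (Y + 1)).filter (fun j => h ≠ j), G ((h : ℤ) - j).natAbs ≤
      2 * ∑ m ∈ Icc 1 Y, G m := by
  classical
  have hsplit : (range (Y + 1)).filter (fun j => h ≠ j) =
      (range (Y + 1)).filter (fun j => j < h) ∪ (range (Y + 1)).filter (fun j => h < j) := by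
    ext j
    simp only [mem_filter, mem_union, mem_range]
    omega
  have hdisj : Disjoint ((range (Y + 1)).filter (fun j => j < h))
      ((range (Y + 1)).filter (fun j => h < j)) := by
    rw [Finset.disjoint_left]
    intro j h1 h2
    simp only [mem_filter] at h1 h2
    omega
  rw [hsplit, Finset.sum_union hdisj, two_mul]
  have key : ∀ s : Finset ℕ, (∀ j ∈ s, 1 ≤ ((h : ℤ) - j).natAbs ∧ ((h : ℤ) - j).natAbs ≤ Y) →
      (∀ j ∈ s, ∀ j' ∈ s, ((h : ℤ) - j).natAbs = ((h : ℤ) - j').natAbs → j = j') →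
      ∑ j ∈ s, G ((h : ℤ) - j).natAbs ≤ ∑ m ∈ Icc 1 Y, G m := by
    intro s hs1 hs2
    rw [← Finset.sum_image (f := G) (g := fun j : ℕ => ((h : ℤ) - j).natAbs)
      (fun j hj j' hj' e => hs2 j hj j' hj' e)]
    refine Finset.sum_le_sum_of_subset_of_nonneg ?_ fun m _ _ => hG m
    intro m hm
    obtain ⟨j, hj, rfl⟩ := Finset.mem_image.1 hm
    exact mem_Icc.2 (hs1 j hj)
  refine add_le_add (key _ ?_ ?_) (key _ ?_ ?_)
  · intro j hj
    simp only [mem_filter, mem_range] at hj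
    omega
  · intro j hj j' hj' e
    simp only [mem_filter, mem_range] at hj hj'
    omega
  · intro j hj
    simp only [mem_filter, mem_range] at hj
    omega
  · intro j hj j' hj' e
    simp only [mem_filter, mem_range] at hj hj'
    omega

theorem one_add_pow_le (K : ℕ) {x : ℝ} (hx0 : 0 ≤ x) (hx1 : x ≤ 1) :
    (1 + x) ^ K ≤ 1 + (2 ^ K - 1) * x := by
  induction K with
  | zero => simp
  | succ K ih =>
    have h1 : (1 : ℝ) ≤ 2 ^ K := one_le_pow₀ (by norm_num)
    have h2 : x ^ 2 ≤ x := by nlinarith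
    calc (1 + x) ^ (K + 1) = (1 + x) ^ K * (1 + x) := pow_succ _ _
      _ ≤ (1 + (2 ^ K - 1) * x) * (1 + x) := mul_le_mul_of_nonneg_right ih (by linarith)
      _ = 1 + 2 ^ K * x + (2 ^ K - 1) * x ^ 2 := by ring
      _ ≤ 1 + 2 ^ K * x + (2 ^ K - 1) * x := by nlinarith
      _ = 1 + (2 ^ (K + 1) - 1) * x := by ring

/-- the local function -/
noncomputable def gg (K p : ℕ) : ℝ := (1 + 1 / (p : ℝ)) ^ K - 1

theorem gg_nonneg (K p : ℕ) : 0 ≤ gg K p := by
  unfold gg
  have := one_le_pow₀ (n := K) (one_le_fac p)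
  linarith

theorem gg_le (K : ℕ) {p : ℕ} (hp : 1 ≤ p) : gg K p ≤ 2 ^ K * (1 / (p : ℝ)) := by
  unfold gg
  have hp' : (1 : ℝ) ≤ p := by exact_mod_cast hp
  have h1 : 1 / (p : ℝ) ≤ 1 := (div_le_one (by linarith)).2 hp'
  have h0 : 0 ≤ 1 / (p : ℝ) := by positivity
  have := one_add_pow_le K h0 h1
  nlinarith

theorem FF_pow (K m : ℕ) :
    FF m ^ K = ∑ S ∈ m.primeFactors.powerset, ∏ p ∈ S, gg K p := by
  unfold FF
  rw [← Finset.prod_pow, ← Finset.prod_one_add]
  refine Finset.prod_congr rfl fun p _ => ?_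
  unfold gg
  ring

theorem count_le (Y : ℕ) (S : Finset ℕ) (hS : ∀ p ∈ S, p.Prime) :
    (((Icc 1 Y).filter (fun m => S ⊆ m.primeFactors)).card : ℝ) ≤ Y / ∏ p ∈ S, (p : ℝ) := by
  have h1 : (Icc 1 Y).filter (fun m => S ⊆ m.primeFactors) ⊆
      (Ioc 0 Y).filter (fun m => (∏ p ∈ S, p) ∣ m) := by
    intro m hm
    obtain ⟨h2, h3⟩ := mem_filter.1 hm
    refine mem_filter.2 ⟨mem_Ioc.2 (by have := mem_Icc.1 h2; omega), ?_⟩
    exact Finset.prod_primes_dvd m (fun p hp => (hS p hp).prime)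
      fun p hp => Nat.dvd_of_mem_primeFactors (h3 hp)
  have h2 := Finset.card_le_card h1
  rw [Nat.Ioc_filter_dvd_card_eq_div] at h2
  have h3 : (((Icc 1 Y).filter (fun m => S ⊆ m.primeFactors)).card : ℝ) ≤
      ((Y / ∏ p ∈ S, p : ℕ) : ℝ) := by exact_mod_cast h2
  refine h3.trans (Nat.cast_div_le.trans ?_)
  push_cast
  exact le_rfl

theorem sum_inv_sq_le (Y : ℕ) :
    ∑ p ∈ (range (Y + 1)).filter Nat.Prime, 1 / (p : ℝ) ^ 2 ≤ 2 := by
  have h1 := sum_Ioo_inv_sq_le (α := ℝ) 0 (Y + 1)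
  have h2 : ∑ p ∈ (range (Y + 1)).filter Nat.Prime, 1 / (p : ℝ) ^ 2 ≤
      ∑ i ∈ Ioo 0 (Y + 1), ((i : ℝ) ^ 2)⁻¹ := by
    refine (Finset.sum_le_sum_of_subset_of_nonneg (t := Ioo 0 (Y + 1)) ?_
      fun i _ _ => by positivity).trans (Finset.sum_le_sum fun i _ => by rw [one_div])
    intro p hp
    obtain ⟨h3, h4⟩ := mem_filter.1 hp
    exact mem_Ioo.2 ⟨h4.pos, mem_range.1 h3⟩
  norm_num at h1 h2 ⊢
  linarith

theorem moment (K Y : ℕ) :
    ∑ m ∈ Icc 1 Y, FF m ^ K ≤ Real.exp (2 ^ K * 2) * Y := by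
  classical
  set PY := (range (Y + 1)).filter Nat.Prime with hPY
  have hsub : ∀ m ∈ Icc 1 Y, m.primeFactors ⊆ PY := by
    intro m hm p hp
    have h1 := mem_Icc.1 hm
    have h2 := Nat.prime_of_mem_primeFactors hp
    have h3 := Nat.le_of_mem_primeFactors hp
    exact mem_filter.2 ⟨mem_range.2 (by omega), h2⟩
  calc ∑ m ∈ Icc 1 Y, FF m ^ K
      = ∑ m ∈ Icc 1 Y, ∑ S ∈ PY.powerset,
          if S ⊆ m.primeFactors then ∏ p ∈ S, gg K p else 0 := by
        refine Finset.sum_congr rfl fun m hm => ?_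
        rw [FF_pow, ← Finset.sum_filter]
        refine Finset.sum_congr ?_ fun _ _ => rfl
        ext S
        simp only [mem_powerset, mem_filter]
        exact ⟨fun h => ⟨h.trans (hsub m hm), h⟩, fun h => h.2⟩
    _ = ∑ S ∈ PY.powerset, ∑ m ∈ Icc 1 Y,
          if S ⊆ m.primeFactors then ∏ p ∈ S, gg K p else 0 := Finset.sum_comm
    _ = ∑ S ∈ PY.powerset,
          (((Icc 1 Y).filter (fun m => S ⊆ m.primeFactors)).card : ℝ) * ∏ p ∈ S, gg K p := by
        refine Finset.sum_congr rfl fun S _ => ?_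
        rw [← Finset.sum_filter, Finset.sum_const, nsmul_eq_mul]
    _ ≤ ∑ S ∈ PY.powerset, (Y / ∏ p ∈ S, (p : ℝ)) * ∏ p ∈ S, gg K p := by
        refine Finset.sum_le_sum fun S hS => ?_
        refine mul_le_mul_of_nonneg_right (count_le Y S fun p hp => ?_)
          (Finset.prod_nonneg fun p _ => gg_nonneg K p)
        exact (mem_filter.1 (mem_powerset.1 hS hp)).2
    _ = Y * ∑ S ∈ PY.powerset, ∏ p ∈ S, (gg K p / p) := by
        rw [Finset.mul_sum]
        refine Finset.sum_congr rfl fun S _ => ?_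
        rw [Finset.prod_div_distrib]
        ring
    _ = Y * ∏ p ∈ PY, (1 + gg K p / p) := by rw [Finset.prod_one_add]
    _ ≤ Y * Real.exp (2 ^ K * 2) := by
        refine mul_le_mul_of_nonneg_left ?_ (Nat.cast_nonneg Y)
        calc ∏ p ∈ PY, (1 + gg K p / p) ≤ ∏ p ∈ PY, Real.exp (gg K p / p) := by
              refine Finset.prod_le_prod (fun p _ => ?_) fun p _ => ?_
              · have := gg_nonneg K p
                positivity
              · rw [add_comm]
                exact Real.add_one_le_exp _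
          _ = Real.exp (∑ p ∈ PY, gg K p / p) := (Real.exp_sum _ _).symm
          _ ≤ Real.exp (2 ^ K * 2) := by
              refine Real.exp_le_exp.2 ?_
              calc ∑ p ∈ PY, gg K p / p ≤ ∑ p ∈ PY, 2 ^ K * (1 / (p : ℝ) ^ 2) := by
                    refine Finset.sum_le_sum fun p hp => ?_
                    have hp1 : 1 ≤ p := (mem_filter.1 hp).2.one_le
                    have h1 := gg_le K hp1
                    calc gg K p / p ≤ (2 ^ K * (1 / (p : ℝ))) / p :=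
                          div_le_div_of_nonneg_right h1 (Nat.cast_nonneg p)
                      _ = 2 ^ K * (1 / (p : ℝ) ^ 2) := by
                          rw [mul_div_assoc, div_div, sq]
                _ = 2 ^ K * ∑ p ∈ PY, 1 / (p : ℝ) ^ 2 := by rw [Finset.mul_sum]
                _ ≤ 2 ^ K * 2 := mul_le_mul_of_nonneg_left (sum_inv_sq_le Y) (by positivity)
    _ = Real.exp (2 ^ K * 2) * Y := mul_comm _ _

theorem singAvg : SingAvg := by
  classical
  intro K
  rcases Nat.eq_zero_or_pos K with rfl | hK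
  · refine ⟨2, by norm_num, fun Y h hY _ => ?_⟩
    simp only [univ_eq_empty, prod_empty, Nat.primeFactors_one, sum_const, nsmul_eq_mul, mul_one]
    have h1 : ((range (Y + 1)).filter (fun j => ∀ i : Fin 0, h i ≠ j)).card ≤ Y + 1 :=
      (card_filter_le _ _).trans (by simp)
    have h2 : (((range (Y + 1)).filter (fun j => ∀ i : Fin 0, h i ≠ j)).card : ℝ) ≤ Y + 1 := by
      exact_mod_cast h1
    have h3 : (1 : ℝ) ≤ Y := by exact_mod_cast hY
    linarith
  · refine ⟨2 * K * Real.exp (2 ^ K * 2), by positivity, fun Y h hY hh => ?_⟩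
    set T := (range (Y + 1)).filter (fun j => ∀ i, h i ≠ j) with hT
    have hne : ∀ j ∈ T, ∀ i, ((h i : ℤ) - j).natAbs ≠ 0 := by
      intro j hj i
      have := (mem_filter.1 hj).2 i
      omega
    calc ∑ j ∈ T, ∏ p ∈ (∏ i, ((h i : ℤ) - j).natAbs).primeFactors, (1 + 1 / (p : ℝ))
        ≤ ∑ j ∈ T, ∏ i, FF ((h i : ℤ) - j).natAbs :=
          Finset.sum_le_sum fun j hj => prod_primeFactors_le univ _ fun i _ => hne j hj i
      _ ≤ ∑ j ∈ T, ∑ i, FF ((h i : ℤ) - j).natAbs ^ K :=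
          Finset.sum_le_sum fun j _ => prod_le_sum_pow hK _ fun i => FF_nonneg _
      _ = ∑ i, ∑ j ∈ T, FF ((h i : ℤ) - j).natAbs ^ K := Finset.sum_comm
      _ ≤ ∑ _i : Fin K, 2 * (Real.exp (2 ^ K * 2) * Y) := by
          refine Finset.sum_le_sum fun i _ => ?_
          refine (Finset.sum_le_sum_of_subset_of_nonneg
            (t := (range (Y + 1)).filter (fun j => h i ≠ j)) ?_ fun j _ _ =>
              pow_nonneg (FF_nonneg _) K).trans ?_
          · intro j hj
            have := mem_filter.1 hj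
            exact mem_filter.2 ⟨this.1, this.2 i⟩
          · refine (sum_abs_le Y (h i) (hh i) (fun m => FF m ^ K) fun m =>
              pow_nonneg (FF_nonneg _) K).trans ?_
            exact mul_le_mul_of_nonneg_left (moment K Y) (by norm_num)
      _ = 2 * K * Real.exp (2 ^ K * 2) * Y := by
          rw [Finset.sum_const, card_univ, Fintype.card_fin, nsmul_eq_mul]
          ring

end Pool.Agent.Helper68.MT
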